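import Mathlib
import Pool.Agent.H44.WEP.WepEta

set_option autoImplicit false

namespace Pool.Agent.Results.MP_02c8cc_an.SipNotWepDivisor

open Pool.Agent.H44.WEP

/-- There is an inner function `Theta` with `eta_Theta (t) -> 1` as `t -> 1` (the Sharp
Invertibility Property in its `eta`-form) which divides no inner function `Phi` with the
Weak Embedding Property. -/
theorem result : ∃ Θ : ℂ → ℂ, IsInner Θ ∧ EtaTendsToOne Θ ∧
    ∀ Φ : ℂ → ℂ, IsInner Φ → HasWEP Φ → ¬ DividesInHInf Θ Φ :=
  main_theorem

end Pool.Agent.Results.MP_02c8cc_an.SipNotWepDivisor
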